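import Pool.Agent.H947R2.CV.Stubs

/-! Task MID: midpoints. -/

set_option autoImplicit false

namespace H947CV

private theorem MID_mid (d : ℕ) (B : Set (Fin d → ℝ)) (hB : Convex ℝ B) (S : Finset (Fin d → ℤ))
    (hS : ∀ y : Fin d → ℤ, y ∈ S ↔ (fun i => (y i : ℝ)) ∈ B) (hne : S.Nonempty) :
    ∃ y0 ∈ S, ∃ V : Finset (Fin d → ℤ), (∀ v, v ∈ V ↔ y0 + v ∈ S ∧ y0 - v ∈ S) ∧
      S.card ≤ 4 ^ d * V.card := by
  classical
  -- the classes mod 2
  let f : (Fin d → ℤ) → (Fin d → ZMod 2) := fun y i => (y i : ZMod 2)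
  obtain ⟨c, -, hc⟩ := Finset.exists_max_image (Finset.univ : Finset (Fin d → ZMod 2))
    (fun c => (S.filter (fun y => f y = c)).card) Finset.univ_nonempty
  obtain ⟨A2, hA2⟩ : ∃ A2, A2 = S.filter (fun y => f y = c) := ⟨_, rfl⟩
  have h1 : S.card ≤ 2 ^ d * A2.card := by
    have h2 := Finset.card_eq_sum_card_fiberwise (f := f) (s := S)
      (t := (Finset.univ : Finset (Fin d → ZMod 2))) (fun _ _ => Finset.mem_coe.2 (Finset.mem_univ _))
    have h3 := Finset.sum_le_card_nsmul (Finset.univ : Finset (Fin d → ZMod 2))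
      (fun c => (S.filter (fun y => f y = c)).card) A2.card (fun x hx => by
        rw [hA2]; exact hc x hx)
    rw [← h2] at h3
    have h4 : (Finset.univ : Finset (Fin d → ZMod 2)).card = 2 ^ d := by
      rw [Finset.card_univ, Fintype.card_fun, ZMod.card, Fintype.card_fin]
    rw [h4, smul_eq_mul] at h3
    exact h3
  -- midpoints
  let g : (Fin d → ℤ) × (Fin d → ℤ) → (Fin d → ℤ) := fun p i => (p.1 i + p.2 i) / 2
  have hg : ∀ p ∈ A2 ×ˢ A2, ∀ i, 2 * g p i = p.1 i + p.2 i := by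
    intro p hp i
    rw [Finset.mem_product, hA2, Finset.mem_filter, Finset.mem_filter] at hp
    have e1 : ((p.1 i : ℤ) : ZMod 2) = c i := congrFun hp.1.2 i
    have e2 : ((p.2 i : ℤ) : ZMod 2) = c i := congrFun hp.2.2 i
    have e3 : (p.1 i) ≡ (p.2 i) [ZMOD 2] := by
      have : ((p.1 i : ℤ) : ZMod 2) = ((p.2 i : ℤ) : ZMod 2) := by rw [e1, e2]
      exact (ZMod.intCast_eq_intCast_iff _ _ 2).1 this
    have e4 : (p.1 i + p.2 i) % 2 = 0 := by
      have := e3
      unfold Int.ModEq at this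
      omega
    show 2 * ((p.1 i + p.2 i) / 2) = p.1 i + p.2 i
    omega
  have hgS : ∀ p ∈ A2 ×ˢ A2, g p ∈ S := by
    intro p hp
    have hgp := hg p hp
    rw [Finset.mem_product, hA2, Finset.mem_filter, Finset.mem_filter] at hp
    rw [hS]
    have b1 := (hS _).1 hp.1.1
    have b2 := (hS _).1 hp.2.1
    have b3 := hB b1 b2 (show (0:ℝ) ≤ 1 / 2 by norm_num) (show (0:ℝ) ≤ 1 / 2 by norm_num)
      (by norm_num)
    convert b3 using 1
    funext i
    have b4 : (2 : ℝ) * (g p i : ℝ) = (p.1 i : ℝ) + (p.2 i : ℝ) := by exact_mod_cast hgp i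
    simp only [Pi.add_apply, Pi.smul_apply, smul_eq_mul]
    linarith
  obtain ⟨y0, hy0, hmax⟩ := Finset.exists_max_image S
    (fun y => ((A2 ×ˢ A2).filter (fun p => g p = y)).card) hne
  have h5 : A2.card * A2.card ≤ S.card * ((A2 ×ˢ A2).filter (fun p => g p = y0)).card := by
    have h2 := Finset.card_eq_sum_card_fiberwise (f := g) (s := A2 ×ˢ A2) (t := S)
      (fun p hp => Finset.mem_coe.2 (hgS p (Finset.mem_coe.1 hp)))
    have h3 := Finset.sum_le_card_nsmul S
      (fun y => ((A2 ×ˢ A2).filter (fun p => g p = y)).card) _ hmax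
    rw [← h2, Finset.card_product, smul_eq_mul] at h3
    exact h3
  -- the symmetric set
  obtain ⟨V, hV⟩ : ∃ V, V = (S.image (fun s => s - y0)).filter (fun v => y0 - v ∈ S) := ⟨_, rfl⟩
  have hVm : ∀ v, v ∈ V ↔ y0 + v ∈ S ∧ y0 - v ∈ S := by
    intro v
    rw [hV, Finset.mem_filter, Finset.mem_image]
    constructor
    · rintro ⟨⟨s, hs, rfl⟩, h⟩
      refine ⟨?_, h⟩
      rwa [add_sub_cancel]
    · rintro ⟨h, h'⟩
      exact ⟨⟨y0 + v, h, by abel⟩, h'⟩
  have h6 : ((A2 ×ˢ A2).filter (fun p => g p = y0)).card ≤ V.card := by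
    have key : ∀ p ∈ (A2 ×ˢ A2).filter (fun p => g p = y0), p.2 = y0 - (p.1 - y0) := by
      intro p hp
      rw [Finset.mem_filter] at hp
      funext i
      have := hg p hp.1 i
      rw [hp.2] at this
      simp only [Pi.sub_apply]
      linarith
    apply Finset.card_le_card_of_injOn (fun p => p.1 - y0)
    · intro p hp
      have hk := key p (Finset.mem_coe.1 hp)
      rw [Finset.mem_coe, Finset.mem_filter, Finset.mem_product, hA2, Finset.mem_filter,
        Finset.mem_filter] at hp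
      rw [Finset.mem_coe, hVm]
      refine ⟨?_, ?_⟩
      · rw [add_sub_cancel]; exact hp.1.1.1
      · rw [← hk]; exact hp.1.2.1
    · intro p hp p' hp' h
      have hk := key p (Finset.mem_coe.1 hp)
      have hk' := key p' (Finset.mem_coe.1 hp')
      have h7 : p.1 = p'.1 := by simpa using h
      apply Prod.ext h7
      rw [hk, hk', h7]
  refine ⟨y0, hy0, V, hVm, ?_⟩
  have hpos : 0 < S.card := Finset.card_pos.2 hne
  have h8 : S.card * S.card ≤ S.card * (4 ^ d * V.card) := by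
    calc S.card * S.card ≤ (2 ^ d * A2.card) * (2 ^ d * A2.card) := Nat.mul_le_mul h1 h1
      _ = 4 ^ d * (A2.card * A2.card) := by
        rw [show (4:ℕ) = 2 * 2 by norm_num, mul_pow]; ring
      _ ≤ 4 ^ d * (S.card * V.card) :=
        Nat.mul_le_mul_left _ (h5.trans (Nat.mul_le_mul_left _ h6))
      _ = S.card * (4 ^ d * V.card) := by ring
  exact Nat.le_of_mul_le_mul_left h8 hpos

theorem MID_proof : St_MID := by
  intro d B S hB hS hne
  exact MID_mid d B hB S hS hne

end H947CV
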